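import Mathlib

/-!
The Kollár–Rónyai–Szabó lemma: the system `∏ j, (z j + a k j) = b k` (`k, j < t`), with `a k j`
injective in `k`, has at most `t !` values of each coordinate among its solutions.
-/

namespace Pool.Agent.P.MP_80f86c_co.Kab

open MvPolynomial Finset

variable {K : Type} [Field K] {t : ℕ}

/-- the left sides of the system -/
noncomputable def fk (a : Fin t → Fin t → K) (k : Fin t) : MvPolynomial (Fin t) K :=
  ∏ j, (X j + C (a k j))

/-- the valuative core of the lemma -/
lemma mem_valuationSubring {L : Type} [Field L] (V : ValuationSubring L) (x : Fin t → L)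
    (a : Fin t → Fin t → L) (ha : ∀ k j, a k j ∈ V)
    (hu : ∀ j k l, k ≠ l → V.valuation (a k j - a l j) = 1)
    (hf : ∀ k, ∏ j, (x j + a k j) ∈ V) (j₀ : Fin t) : x j₀ ∈ V := by
  classical
  by_contra h0
  have hbig : ∀ k j, x j ∉ V → 1 < V.valuation (x j + a k j) := by
    intro k j hj
    by_contra hle
    have h1 : x j + a k j ∈ V := (V.valuation_le_one_iff _).1 (not_lt.1 hle)
    exact hj (by simpa using V.sub_mem h1 (ha k j))
  have hex : ∃ k, ∀ j, 1 ≤ V.valuation (x j + a k j) := by
    by_contra hcon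
    push Not at hcon
    choose g hg using hcon
    have hinj : Function.Injective g := by
      intro k l hkl
      by_contra hne
      have h1 := hg k
      have h2 := hg l
      rw [← hkl] at h2
      have h3 : V.valuation ((x (g k) + a k (g k)) - (x (g k) + a l (g k))) < 1 :=
        lt_of_le_of_lt (V.valuation.map_sub _ _) (max_lt h1 h2)
      rw [add_sub_add_left_eq_sub, hu _ _ _ hne] at h3
      exact lt_irrefl _ h3
    obtain ⟨k, hk⟩ := (Finite.injective_iff_surjective.1 hinj) j₀
    have := hg k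
    rw [hk] at this
    exact lt_asymm this (hbig k j₀ h0)
  obtain ⟨k, hk⟩ := hex
  have h1 : V.valuation (∏ j, (x j + a k j)) ≤ 1 := (V.valuation_le_one_iff _).2 (hf k)
  rw [map_prod, ← Finset.mul_prod_erase univ _ (mem_univ j₀)] at h1
  have h2 : 1 ≤ ∏ j ∈ univ.erase j₀, V.valuation (x j + a k j) :=
    Finset.one_le_prod' fun j _ => hk j
  have h3 := hbig k j₀ h0
  have h4 := mul_le_mul_right h2 (V.valuation (x j₀ + a k j₀))
  rw [mul_one] at h4
  exact absurd (h3.trans_le (h4.trans h1)) (lt_irrefl _)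

lemma isIntegral_X (a : Fin t → Fin t → K) (ha : ∀ j, Function.Injective fun k => a k j)
    (j₀ : Fin t) :
    IsIntegral (Algebra.adjoin K (Set.range (fk a))) (X j₀ : MvPolynomial (Fin t) K) := by
  set B := Algebra.adjoin K (Set.range (fk a)) with hB
  let L := FractionRing (MvPolynomial (Fin t) K)
  have hinj : Function.Injective (algebraMap (MvPolynomial (Fin t) K) L) :=
    IsFractionRing.injective _ _
  rw [← isIntegral_algebraMap_iff hinj]
  by_contra hcon
  have hmem : algebraMap (MvPolynomial (Fin t) K) L (X j₀) ∉ (integralClosure B L).toSubring :=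
    hcon
  obtain ⟨V, hV, hx⟩ := Subring.exists_le_valuationSubring_of_isIntegrallyClosedIn hmem
  have hBV : ∀ p ∈ B, algebraMap (MvPolynomial (Fin t) K) L p ∈ V := by
    intro p hp
    exact hV (Subalgebra.algebraMap_mem (integralClosure B L) (⟨p, hp⟩ : B))
  have hC : ∀ c : K, algebraMap (MvPolynomial (Fin t) K) L (C c) ∈ V := fun c =>
    hBV _ (B.algebraMap_mem c)
  refine hx (mem_valuationSubring V (fun j => algebraMap (MvPolynomial (Fin t) K) L (X j))
    (fun k j => algebraMap (MvPolynomial (Fin t) K) L (C (a k j))) (fun k j => hC _) ?_ ?_ j₀)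
  · intro j k l hkl
    have hne : a k j - a l j ≠ 0 := sub_ne_zero.2 fun h => hkl (ha j h)
    rw [← map_sub, ← map_sub]
    have h1 := (V.valuation_le_one_iff _).2 (hC (a k j - a l j))
    have h2 := (V.valuation_le_one_iff _).2 (hC (a k j - a l j)⁻¹)
    have h3 : V.valuation (algebraMap (MvPolynomial (Fin t) K) L (C (a k j - a l j))) *
        V.valuation (algebraMap (MvPolynomial (Fin t) K) L (C (a k j - a l j)⁻¹)) = 1 := by
      rw [← map_mul, ← map_mul, ← map_mul, mul_inv_cancel₀ hne]
      simp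
    refine le_antisymm h1 ?_
    have h4 := mul_le_mul_right h2
      (V.valuation (algebraMap (MvPolynomial (Fin t) K) L (C (a k j - a l j))))
    rwa [h3, mul_one] at h4
  · intro k
    have := hBV (fk a k) (Algebra.subset_adjoin ⟨k, rfl⟩)
    simpa [fk, map_prod] using this

lemma isIntegral_all (a : Fin t → Fin t → K) (ha : ∀ j, Function.Injective fun k => a k j) :
    Algebra.IsIntegral (Algebra.adjoin K (Set.range (fk a))) (MvPolynomial (Fin t) K) := by
  refine ⟨fun p => ?_⟩
  induction p using MvPolynomial.induction_on with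
  | C c =>
    exact isIntegral_algebraMap
      (x := (⟨C c, Subalgebra.algebraMap_mem _ c⟩ : Algebra.adjoin K (Set.range (fk a))))
  | add p q hp hq => exact hp.add hq
  | mul_X p j hp => exact hp.mul (isIntegral_X a ha j)

lemma algebraicIndependent_fk (a : Fin t → Fin t → K)
    (ha : ∀ j, Function.Injective fun k => a k j) : AlgebraicIndependent K (fk a) := by
  have := isIntegral_all a ha
  refine (Algebra.IsAlgebraic.isTranscendenceBasis_of_le_trdeg_of_finite K (fk a) ?_).1
  rw [MvPolynomial.trdeg_of_isDomain]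
  simp

lemma degreeOf_fk (a : Fin t → Fin t → K) (k j : Fin t) : degreeOf j (fk a k) ≤ 1 := by
  classical
  refine (degreeOf_prod_le _ _ _).trans ?_
  have : ∀ l ∈ (univ : Finset (Fin t)),
      degreeOf j (X l + C (a k l) : MvPolynomial (Fin t) K) ≤ if j = l then 1 else 0 := by
    intro l _
    refine (degreeOf_add_le _ _ _).trans ?_
    rw [degreeOf_C, degreeOf_X]
    simp
  refine (sum_le_sum this).trans ?_
  simp

lemma exists_count (t : ℕ) :
    ∃ M : ℕ, (M + t.factorial + 1) ^ t < (t.factorial + 1) * (M + t).choose t := by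
  set D := t.factorial with hD
  have hD0 : (0 : ℝ) < D := by exact_mod_cast t.factorial_pos
  have h1 : Filter.Tendsto (fun M : ℕ => (1 + (D : ℝ) * (1 / ((M : ℝ) + 1))) ^ t) Filter.atTop
      (nhds ((1 + (D : ℝ) * 0) ^ t)) :=
    ((tendsto_one_div_add_atTop_nhds_zero_nat.const_mul _).const_add _).pow t
  have h2 : ((1 + (D : ℝ) * 0) ^ t) < 1 + 1 / D := by
    simp [t.factorial_pos, hD]
  obtain ⟨M, hM⟩ := (h1.eventually (gt_mem_nhds h2)).exists
  refine ⟨M, ?_⟩
  have h3 : (M + 1) ^ t ≤ D * (M + t).choose t := by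
    rw [hD, ← Nat.ascFactorial_eq_factorial_mul_choose]
    exact Nat.pow_succ_le_ascFactorial _ _
  have h4 : ((M : ℝ) + 1) ^ t ≤ D * ((M + t).choose t : ℕ) := by exact_mod_cast h3
  have h5 : ((M : ℝ) + D + 1) ^ t =
      ((M : ℝ) + 1) ^ t * (1 + (D : ℝ) * (1 / ((M : ℝ) + 1))) ^ t := by
    rw [← mul_pow]
    congr 1
    field_simp
    ring
  have h6 : ((M : ℝ) + D + 1) ^ t < (D + 1) * ((M + t).choose t : ℕ) := by
    calc ((M : ℝ) + D + 1) ^ t < ((M : ℝ) + 1) ^ t * (1 + 1 / D) := by
          rw [h5]; exact mul_lt_mul_of_pos_left hM (by positivity)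
      _ ≤ D * ((M + t).choose t : ℕ) * (1 + 1 / D) := by gcongr
      _ = _ := by field_simp
  exact_mod_cast h6

lemma exists_exponents (t M : ℕ) :
    ∃ S : Finset (Fin t →₀ ℕ), #S = (M + t).choose t ∧ ∀ α ∈ S, ∑ k, α k ≤ M := by
  classical
  refine ⟨((univ : Finset (Fin (t + 1))).finsuppAntidiag M).image Finsupp.tail, ?_, ?_⟩
  · rw [card_image_of_injOn, card_finsuppAntidiag_nat_eq_choose]
    · simp only [card_univ, Fintype.card_fin]
      rw [show t + 1 + M - 1 = M + t by omega, Nat.choose_symm_add]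
    · intro f hf g hg hfg
      have h1 := (mem_finsuppAntidiag.1 (mem_coe.1 hf)).1
      have h2 := (mem_finsuppAntidiag.1 (mem_coe.1 hg)).1
      rw [Fin.sum_univ_succ] at h1 h2
      have h3 : ∀ i : Fin t, f i.succ = g i.succ := fun i => by
        rw [← Finsupp.tail_apply, ← Finsupp.tail_apply, hfg]
      simp only [h3] at h1
      ext i
      refine Fin.cases ?_ h3 i
      omega
  · intro α hα
    obtain ⟨f, hf, rfl⟩ := mem_image.1 hα
    have h1 := (mem_finsuppAntidiag.1 hf).1
    rw [Fin.sum_univ_succ] at h1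
    simp only [Finsupp.tail_apply]
    omega

/-- a nontrivial relation of degree at most `t !` between `X j₀` and the `fk a k` -/
lemma exists_relation (a : Fin t → Fin t → K) (j₀ : Fin t) :
    ∃ q : Fin (t.factorial + 1) → MvPolynomial (Fin t) K, (∃ i, q i ≠ 0) ∧
      ∑ i, aeval (fk a) (q i) * X j₀ ^ (i : ℕ) = 0 := by
  classical
  obtain ⟨M, hM⟩ := exists_count t
  obtain ⟨S, hS, hSM⟩ := exists_exponents t M
  set D := t.factorial with hD
  let v : Fin (D + 1) × S → MvPolynomial (Fin t) K := fun p =>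
    aeval (fk a) (monomial p.2.1 (1 : K)) * X j₀ ^ (p.1 : ℕ)
  have hv : ∀ p j, degreeOf j (v p) ≤ M + D := by
    intro p j
    refine (degreeOf_mul_le _ _ _).trans (add_le_add ?_ ?_)
    · rw [aeval_monomial, map_one, one_mul, Finsupp.prod_fintype _ _ (by simp)]
      refine (degreeOf_prod_le _ _ _).trans (le_trans (sum_le_sum fun k _ => ?_) (hSM _ p.2.2))
      refine (degreeOf_pow_le _ _ _).trans ?_
      simpa using Nat.mul_le_mul_left (p.2.1 k) (degreeOf_fk a k j)
    · refine (degreeOf_pow_le _ _ _).trans ?_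
      have h1 : degreeOf j (X j₀ : MvPolynomial (Fin t) K) ≤ 1 := by
        rw [degreeOf_X]; split_ifs <;> simp
      have h2 := p.1.isLt
      have h3 := Nat.mul_le_mul_left (p.1 : ℕ) h1
      omega
  let Φ : (Fin (D + 1) × S → K) →ₗ[K] ((Fin t → Fin (M + D + 1)) → K) :=
    (LinearMap.pi fun e => lcoeff K (Finsupp.equivFunOnFinite.symm fun j => (e j : ℕ))).comp
      (Fintype.linearCombination K v)
  have hker : LinearMap.ker Φ ≠ ⊥ := by
    refine LinearMap.ker_ne_bot_of_finrank_lt ?_
    simpa [hS] using hM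
  obtain ⟨c, hc, hc0⟩ := Submodule.exists_mem_ne_zero_of_ne_bot hker
  have hsum : ∑ p, c p • v p = 0 := by
    by_contra hne
    obtain ⟨e, he⟩ := MvPolynomial.support_nonempty.2 hne
    have hle : ∀ j, e j ≤ M + D := by
      intro j
      obtain ⟨p, -, hp⟩ := Finset.mem_biUnion.1 (MvPolynomial.support_sum he)
      exact (monomial_le_degreeOf j (MvPolynomial.support_smul hp)).trans (hv p j)
    have h1 := congrFun (LinearMap.mem_ker.1 hc) fun j => ⟨e j, Nat.lt_succ_of_le (hle j)⟩
    have h2 : (Finsupp.equivFunOnFinite.symm fun j => e j) = e := by ext; simp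
    simp only [Φ, LinearMap.comp_apply, LinearMap.pi_apply, lcoeff_apply, h2,
      Fintype.linearCombination_apply, Pi.zero_apply] at h1
    exact (mem_support_iff.1 he) h1
  refine ⟨fun i => ∑ α : S, monomial α.1 (c (i, α)), ?_, ?_⟩
  · obtain ⟨⟨i, α⟩, hp⟩ := Function.ne_iff.1 hc0
    refine ⟨i, fun h => hp ?_⟩
    have h1 := congrArg (coeff α.1) h
    rw [coeff_sum, Finset.sum_eq_single α] at h1
    · simpa using h1
    · intro β _ hβ
      rw [coeff_monomial, if_neg fun h => hβ (Subtype.ext h)]
    · simp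
  · rw [← hsum, Fintype.sum_prod_type]
    refine sum_congr rfl fun i _ => ?_
    rw [map_sum, sum_mul]
    refine sum_congr rfl fun α _ => ?_
    rw [← smul_mul_assoc, ← map_smul, smul_monomial, smul_eq_mul, mul_one]

/-- **Kollár–Rónyai–Szabó.** -/
theorem krs (a : Fin t → Fin t → K) (ha : ∀ j, Function.Injective fun k => a k j)
    (b : Fin t → K) (j₀ : Fin t) (Z : Finset K)
    (hZ : ∀ u ∈ Z, ∃ z : Fin t → K, z j₀ = u ∧ ∀ k, ∏ j, (z j + a k j) = b k) :
    #Z ≤ t.factorial := by
  classical
  rcases Z.eq_empty_or_nonempty with rfl | ⟨u₀, hu₀⟩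
  · simp
  obtain ⟨z₀, -, hz₀⟩ := hZ u₀ hu₀
  set B := Algebra.adjoin K (Set.range (fk a)) with hB
  have hind := algebraicIndependent_fk a ha
  have : IsIntegrallyClosed B := IsIntegrallyClosed.of_equiv hind.aevalEquiv.toRingEquiv
  have hint : IsIntegral B (X j₀ : MvPolynomial (Fin t) K) := isIntegral_X a ha j₀
  obtain ⟨q, ⟨i₀, hi₀⟩, hq⟩ := exists_relation a j₀
  let Q : Polynomial B :=
    ∑ i : Fin (t.factorial + 1), Polynomial.monomial (i : ℕ) (hind.aevalEquiv (q i))
  have hQ0 : Q ≠ 0 := by
    intro h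
    have h1 := congrArg (fun P => Polynomial.coeff P i₀) h
    simp only [Q, Polynomial.finsetSum_coeff, Polynomial.coeff_monomial, Polynomial.coeff_zero]
      at h1
    rw [Finset.sum_eq_single i₀] at h1
    · exact hi₀ (by simpa using h1)
    · intro j _ hj
      rw [if_neg fun h => hj (Fin.ext h)]
    · simp
  have hQd : Q.natDegree ≤ t.factorial := by
    refine Polynomial.natDegree_sum_le_of_forall_le _ _ fun i _ => ?_
    exact (Polynomial.natDegree_monomial_le _).trans (Nat.lt_succ_iff.1 i.isLt)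
  have hQe : Polynomial.aeval (X j₀ : MvPolynomial (Fin t) K) Q = 0 := by
    rw [← hq]
    simp only [Q, map_sum, Polynomial.aeval_monomial]
    rfl
  have hdeg : (minpoly B (X j₀ : MvPolynomial (Fin t) K)).natDegree ≤ t.factorial :=
    (Polynomial.natDegree_le_of_dvd (minpoly.isIntegrallyClosed_dvd hint hQe) hQ0).trans hQd
  let ψ : (Fin t → K) → B →+* K := fun z => (eval z).comp (algebraMap B _)
  have hψ : ∀ z : Fin t → K, (∀ k, ∏ j, (z j + a k j) = b k) → ψ z = ψ z₀ := by
    intro z hz
    ext ⟨p, hp⟩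
    change eval z p = eval z₀ p
    induction hp using Algebra.adjoin_induction with
    | mem x hx =>
      obtain ⟨k, rfl⟩ := hx
      simp [fk, hz, hz₀]
    | algebraMap r => simp
    | add x y _ _ hx hy => rw [map_add, map_add, hx, hy]
    | mul x y _ _ hx hy => rw [map_mul, map_mul, hx, hy]
  let P : Polynomial K := (minpoly B (X j₀ : MvPolynomial (Fin t) K)).map (ψ z₀)
  have hPm : P.Monic := (minpoly.monic hint).map _
  have hsub : Z ⊆ P.roots.toFinset := by
    intro u hu
    obtain ⟨z, rfl, hz⟩ := hZ u hu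
    rw [Multiset.mem_toFinset, Polynomial.mem_roots hPm.ne_zero, Polynomial.IsRoot.def,
      Polynomial.eval_map, ← hψ z hz]
    have h1 := congrArg (eval z) (minpoly.aeval B (X j₀ : MvPolynomial (Fin t) K))
    rw [Polynomial.aeval_def, Polynomial.hom_eval₂, eval_X, map_zero] at h1
    exact h1
  exact (card_le_card hsub).trans ((Multiset.toFinset_card_le _).trans
    ((Polynomial.card_roots' _).trans (Polynomial.natDegree_map_le.trans hdeg)))

end Pool.Agent.P.MP_80f86c_co.Kab
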