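import Pool.Agent.P.MP_80f86c_co.Kab.KRS
import Pool.Agent.P.MP_80f86c_co.K3Lower

/-!
Twisted multipartite projective norm graphs: `K_{a,b}`-free graphs with at most `q ^ (2 a - 1)`
edges and about `q ^ (a s - s (s - 1) / 2)` copies of `K_s`.
-/

namespace Pool.Agent.P.MP_80f86c_co.Kab

open SimpleGraph Finset

section

variable {K : Type} [Field K]

/-- the norm map -/
def nrm (q t : ℕ) (x : K) : K := ∏ j : Fin t, x ^ q ^ (j : ℕ)

lemma nrm_mul (q t : ℕ) (x y : K) : nrm q t (x * y) = nrm q t x * nrm q t y := by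
  simp [nrm, mul_pow, prod_mul_distrib]

lemma nrm_ne_zero (q t : ℕ) {x : K} (hx : x ≠ 0) : nrm q t x ≠ 0 :=
  prod_ne_zero_iff.2 fun _ _ => pow_ne_zero _ hx

lemma nrm_pow {q t : ℕ} {x : K} (hx : x ≠ 0) (h : x ^ q ^ t = x) : nrm q t x ^ q = nrm q t x := by
  have h1 : ∏ j : Fin (t + 1), x ^ q ^ (j : ℕ) = x * nrm q t x ^ q := by
    rw [Fin.prod_univ_succ, nrm, ← prod_pow]
    simp [pow_succ, pow_mul]
  have h2 : ∏ j : Fin (t + 1), x ^ q ^ (j : ℕ) = nrm q t x * x := by
    rw [Fin.prod_univ_castSucc, nrm]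
    simp [h]
  rw [h2, mul_comm] at h1
  exact (mul_left_cancel₀ hx h1).symm

variable {s : ℕ}

/-- the twisted multipartite projective norm graph -/
def tw (q t : ℕ) (π : K → Fin s) (c : Sym2 (Fin s) → K) : SimpleGraph (K × K) where
  Adj u v := π u.1 ≠ π v.1 ∧ u.2 ^ q = u.2 ∧ v.2 ^ q = v.2 ∧
    nrm q t (u.1 + v.1) = c s(π u.1, π v.1) * u.2 * v.2
  symm := ⟨fun u v h => ⟨h.1.symm, h.2.2.1, h.2.1, by
    rw [add_comm, h.2.2.2, Sym2.eq_swap]; ring⟩⟩
  loopless := ⟨fun _ h => h.1 rfl⟩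

variable [CharP K 2] {q t : ℕ} {π : K → Fin s} {c : Sym2 (Fin s) → K}

lemma add_ne_zero_of_ne {x y : K} (h : x ≠ y) : x + y ≠ 0 := fun h' =>
  h (by rw [← CharTwo.sub_eq_add, sub_eq_zero] at h'; exact h')

lemma tw_ne_zero {u v : K × K} (h : (tw q t π c).Adj u v) :
    u.1 + v.1 ≠ 0 ∧ c s(π u.1, π v.1) ≠ 0 ∧ u.2 ≠ 0 ∧ v.2 ≠ 0 := by
  have h1 : u.1 + v.1 ≠ 0 := add_ne_zero_of_ne fun h' => h.1 (by rw [h'])
  have h2 := nrm_ne_zero q t h1
  rw [h.2.2.2] at h2
  exact ⟨h1, left_ne_zero_of_mul (left_ne_zero_of_mul h2),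
    right_ne_zero_of_mul (left_ne_zero_of_mul h2), right_ne_zero_of_mul h2⟩

lemma tw_eq_of_fst {u v w : K × K} (hv : (tw q t π c).Adj u v) (hw : (tw q t π c).Adj u w)
    (h : v.1 = w.1) : v = w := by
  obtain ⟨-, h2, h3, -⟩ := tw_ne_zero hv
  have h4 := hv.2.2.2
  have h5 := hw.2.2.2
  rw [← h, h4] at h5
  exact Prod.ext h (mul_left_cancel₀ (mul_ne_zero h2 h3) h5)

lemma ec_tw_le [Fintype K] (hq : 1 < q) :
    ec (tw q t π c) ≤ Fintype.card K * q * Fintype.card K := by
  classical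
  let U : Finset K := univ.filter fun u => u ^ q = u
  have hU : #U ≤ q := by
    have := ncard_fixed_le (K := K) hq
    rwa [show {u : K | u ^ q = u} = (U : Set K) by ext; simp [U], Set.ncard_coe_finset] at this
  let f : (K × K) × K → Sym2 (K × K) := fun p =>
    s(p.1, (p.2, nrm q t (p.1.1 + p.2) / (c s(π p.1.1, π p.2) * p.1.2)))
  have hsub : (tw q t π c).edgeSet ⊆ (((univ ×ˢ U) ×ˢ univ).image f : Finset _) := by
    intro e he
    induction e using Sym2.ind with
    | h u v =>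
      have h : (tw q t π c).Adj u v := he
      obtain ⟨-, h2, h3, -⟩ := tw_ne_zero h
      refine mem_coe.2 (mem_image.2 ⟨(u, v.1), by simp [U, h.2.1], ?_⟩)
      simp only [f]
      rw [h.2.2.2, mul_div_cancel_left₀ _ (mul_ne_zero h2 h3)]
  refine (Set.ncard_le_ncard hsub (Set.toFinite _)).trans ?_
  rw [Set.ncard_coe_finset]
  refine card_image_le.trans ?_
  rw [card_product, card_product, card_univ]
  gcongr

lemma tw_free {e : ℕ} (hq : q = 2 ^ e) (ht : 0 < t) {b : ℕ} (hb : (s - 1) * t.factorial < b) :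
    (completeBipartiteGraph (Fin (t + 1)) (Fin b)).Free (tw q t π c) := by
  classical
  rintro ⟨F⟩
  have hfrob : ∀ (j : ℕ) (x y : K), (x + y) ^ q ^ j = x ^ q ^ j + y ^ q ^ j := by
    intro j x y
    rw [hq, ← pow_mul]
    exact add_pow_char_pow x y 2 _
  let f : Fin (t + 1) → K × K := fun i => F (Sum.inl i)
  let g : Fin b → K × K := fun j => F (Sum.inr j)
  have hadj : ∀ i j, (tw q t π c).Adj (f i) (g j) := fun i j => F.toHom.map_rel (by simp)
  have hf : Function.Injective f := fun i j h => Sum.inl_injective (F.injective h)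
  have hg : Function.Injective g := fun i j h => Sum.inr_injective (F.injective h)
  have hmaps : ∀ j ∈ (univ : Finset (Fin b)), π (g j).1 ∈ univ.erase (π (f 0).1) := fun j _ =>
    mem_erase.2 ⟨(hadj 0 j).1.symm, mem_univ _⟩
  have hfib : ∀ p ∈ univ.erase (π (f 0).1),
      #{j ∈ (univ : Finset (Fin b)) | π (g j).1 = p} ≤ t.factorial := by
    intro p _
    set J := {j ∈ (univ : Finset (Fin b)) | π (g j).1 = p} with hJ
    rcases J.eq_empty_or_nonempty with h0 | ⟨j₁, -⟩
    · simp [h0]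
    have hX : ∀ k l, (f k).1 = (f l).1 → k = l := fun k l h =>
      hf (tw_eq_of_fst (hadj k j₁).symm (hadj l j₁).symm h)
    have hX0 : ∀ k : Fin t, (f k.succ).1 + (f 0).1 ≠ 0 := fun k =>
      add_ne_zero_of_ne fun h => Fin.succ_ne_zero k (hX _ _ h)
    let Z : Fin b → K := fun j => ((f 0).1 + (g j).1)⁻¹
    have hZ : Function.Injective Z := fun j j' h =>
      hg (tw_eq_of_fst (hadj 0 j) (hadj 0 j') (add_left_cancel (inv_injective h)))
    rw [← card_image_of_injective J hZ]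
    refine krs (fun k j => ((f k.succ).1 + (f 0).1)⁻¹ ^ q ^ (j : ℕ)) ?_
      (fun k => c s(π (f k.succ).1, p) * (f k.succ).2 /
        (c s(π (f 0).1, p) * (f 0).2 * nrm q t ((f k.succ).1 + (f 0).1))) ⟨0, ht⟩ _ ?_
    · intro j k l hkl
      simp only at hkl
      have h1 := hfrob j ((f k.succ).1 + (f 0).1)⁻¹ ((f l.succ).1 + (f 0).1)⁻¹
      rw [hkl, CharTwo.add_self_eq_zero] at h1
      have h2 := pow_eq_zero_iff (n := q ^ (j : ℕ)) (by rw [hq]; positivity) |>.1 h1
      rw [← CharTwo.sub_eq_add, sub_eq_zero] at h2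
      exact Fin.succ_injective _ (hX _ _ (add_right_cancel (inv_injective h2)))
    · intro u hu
      obtain ⟨j, hj, rfl⟩ := mem_image.1 hu
      have hp : π (g j).1 = p := (mem_filter.1 hj).2
      refine ⟨fun i => Z j ^ q ^ (i : ℕ), by simp, fun k => ?_⟩
      simp only [← hfrob]
      change nrm q t _ = _
      obtain ⟨h1, h2, h3, h4⟩ := tw_ne_zero (hadj 0 j)
      have h5 : (Z j + ((f k.succ).1 + (f 0).1)⁻¹) * ((f 0).1 + (g j).1) *
          ((f k.succ).1 + (f 0).1) = (f k.succ).1 + (g j).1 := by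
        have h6 := hX0 k
        simp only [Z]
        field_simp
        have := CharTwo.add_self_eq_zero (f 0).1
        linear_combination this
      have h7 := congrArg (nrm q t) h5
      rw [nrm_mul, nrm_mul, (hadj 0 j).2.2.2, (hadj k.succ j).2.2.2, hp] at h7
      rw [hp] at h2
      have h8 := nrm_ne_zero q t (hX0 k)
      rw [eq_div_iff (mul_ne_zero (mul_ne_zero h2 h3) h8)]
      refine mul_right_cancel₀ h4 ?_
      linear_combination h7
  have := card_le_mul_card_image_of_maps_to hmaps _ hfib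
  rw [card_erase_of_mem (mem_univ _), card_univ, card_univ, Fintype.card_fin,
    Fintype.card_fin] at this
  rw [mul_comm] at hb
  omega

lemma exists_tw_many [Fintype K] (hq : 1 < q) (hK : Fintype.card K = q ^ t) (hs : 3 ≤ s)
    {w : ℕ} (hw : s * w ≤ q ^ t) :
    ∃ (π : K → Fin s) (c : Sym2 (Fin s) → K),
      w ^ s ≤ kc s (tw q t π c) * q ^ (s.choose 2 - s) := by
  classical
  obtain ⟨γ⟩ : Nonempty (Fin s × Fin w ↪ K) :=
    Function.Embedding.nonempty_of_card_le (by simpa [hK] using hw)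
  let π : K → Fin s := Function.extend γ Prod.fst fun _ => ⟨0, by omega⟩
  have hπ : ∀ p, π (γ p) = p.1 := fun p => γ.injective.extend_apply _ _ p
  let U : Finset K := univ.filter fun u => u ≠ 0 ∧ u ^ q = u
  have hU : #U ≤ q := by
    have := ncard_fixed_le (K := K) hq
    refine le_trans ?_ this
    rw [← Set.ncard_coe_finset]
    exact Set.ncard_le_ncard (fun u hu => (mem_filter.1 hu).2.2) (Set.toFinite _)
  have hU0 : 0 < #U := card_pos.2 ⟨1, by simp [U]⟩
  let A : Finset (Fin s → Fin w × K) := Fintype.piFinset fun _ => univ ×ˢ U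
  let B : Finset (Sym2 (Fin s) → K) := Fintype.piFinset fun e => if e.IsDiag then {1} else U
  let vx : (Fin s → Fin w × K) → Fin s → K × K := fun f i => (γ (i, (f i).1), (f i).2)
  let Φ : (Fin s → Fin w × K) → Sym2 (Fin s) → K := fun f e => if e.IsDiag then 1 else
    Sym2.lift ⟨fun i j => nrm q t ((vx f i).1 + (vx f j).1) / ((f i).2 * (f j).2),
      fun i j => by simp only; rw [add_comm, mul_comm]⟩ e
  have hAU : ∀ f ∈ A, ∀ i, (f i).2 ≠ 0 ∧ (f i).2 ^ q = (f i).2 := fun f hf i =>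
    (mem_filter.1 (mem_product.1 (Fintype.mem_piFinset.1 hf i)).2).2
  have hne : ∀ f i j, i ≠ j → (vx f i).1 + (vx f j).1 ≠ 0 := fun f i j hij =>
    add_ne_zero_of_ne fun h => hij (congrArg Prod.fst (γ.injective h))
  have hmaps : ∀ f ∈ A, Φ f ∈ B := by
    intro f hf
    refine Fintype.mem_piFinset.2 fun e => ?_
    induction e using Sym2.ind with
    | h i j =>
      by_cases hij : i = j
      · simp [Φ, hij]
      · simp only [Φ, Sym2.mk_isDiag_iff, hij, if_false, Sym2.lift_mk, U, mem_filter, mem_univ,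
          true_and]
        refine ⟨div_ne_zero (nrm_ne_zero _ _ (hne f i j hij))
          (mul_ne_zero (hAU f hf i).1 (hAU f hf j).1), ?_⟩
        rw [div_pow, mul_pow, (hAU f hf i).2, (hAU f hf j).2, nrm_pow (hne f i j hij)]
        rw [← hK, FiniteField.pow_card]
  obtain ⟨c₀, -, hc₀⟩ := exists_max_image (univ : Finset (Sym2 (Fin s) → K))
    (fun c => kc s (tw q t π c)) univ_nonempty
  have hfib : ∀ c ∈ B, #{f ∈ A | Φ f = c} ≤ kc s (tw q t π c₀) := by
    intro c _
    refine le_trans ?_ (hc₀ c (mem_univ _))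
    rw [← Set.ncard_coe_finset]
    refine Set.ncard_le_ncard_of_injOn (fun f => univ.image (vx f)) ?_ ?_ (Set.toFinite _)
    · intro f hf
      obtain ⟨hfA, hfc⟩ := mem_filter.1 (mem_coe.1 hf)
      have hinj : Function.Injective (vx f) := fun i j h =>
        congrArg Prod.fst (γ.injective (congrArg Prod.fst h))
      refine ⟨?_, by rw [card_image_of_injective _ hinj, card_univ, Fintype.card_fin]⟩
      intro u hu v hv huv
      obtain ⟨i, -, rfl⟩ := mem_image.1 (mem_coe.1 hu)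
      obtain ⟨j, -, rfl⟩ := mem_image.1 (mem_coe.1 hv)
      have hij : i ≠ j := fun h => huv (by rw [h])
      have hi : π (vx f i).1 = i := hπ _
      have hj : π (vx f j).1 = j := hπ _
      refine ⟨by rw [hi, hj]; exact hij, (hAU f hfA i).2, (hAU f hfA j).2, ?_⟩
      rw [hi, hj, ← hfc]
      simp only [Φ, Sym2.mk_isDiag_iff, hij, if_false, Sym2.lift_mk]
      rw [mul_assoc]
      exact (div_mul_cancel₀ _ (mul_ne_zero (hAU f hfA i).1 (hAU f hfA j).1)).symm
    · intro f _ f' _ h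
      funext i
      have h1 : vx f i ∈ univ.image (vx f') := by
        simp only at h
        rw [← h]; exact mem_image_of_mem _ (mem_univ i)
      obtain ⟨j, -, hj⟩ := mem_image.1 h1
      have h2 := γ.injective (congrArg Prod.fst hj)
      have h3 : j = i := congrArg Prod.fst h2
      subst h3
      exact Prod.ext (congrArg Prod.snd h2).symm (congrArg Prod.snd hj).symm
  have h1 := card_le_mul_card_image_of_maps_to hmaps _ hfib
  have hA : #A = w ^ s * #U ^ s := by
    simp [A, Fintype.card_piFinset, mul_pow]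
  have hB : #B = #U ^ s.choose 2 := by
    simp only [B, Fintype.card_piFinset, apply_ite card, card_singleton]
    rw [prod_ite, prod_const_one, one_mul, prod_const]
    congr 1
    rw [← Fintype.card_subtype, Sym2.card_subtype_not_diag, Fintype.card_fin]
  have hs2 : s ≤ s.choose 2 := by
    rw [Nat.choose_two_right, Nat.le_div_iff_mul_le (by norm_num)]
    exact Nat.mul_le_mul_left _ (by omega)
  refine ⟨π, c₀, ?_⟩
  rw [hA, hB, ← Nat.sub_add_cancel hs2, pow_add, ← mul_assoc] at h1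
  refine (Nat.le_of_mul_le_mul_right h1 (by positivity)).trans ?_
  gcongr

end

lemma exists_graph {a s b : ℕ} (ha : 2 ≤ a) (hs : 3 ≤ s) (hb : (s - 1) * (a - 1).factorial < b)
    {E : ℕ} (hE : E + s.choose 2 = a * s) {e : ℕ} (he : s ≤ 2 ^ e) :
    ∃ m k, m ≤ (2 ^ e) ^ (2 * a - 1) ∧ (2 ^ e) ^ E ≤ (2 * s) ^ s * k ∧
      Ach (fun _ G => (completeBipartiteGraph (Fin a) (Fin b)).Free G) s m k := by
  classical
  obtain ⟨t, rfl⟩ : ∃ t, a = t + 1 := ⟨a - 1, by omega⟩
  have ht : 0 < t := by omega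
  have he0 : e ≠ 0 := by rintro rfl; simp at he; omega
  set q := 2 ^ e with hq
  have hq1 : 1 < q := by omega
  let K := GaloisField 2 (e * t)
  have := Fintype.ofFinite K
  have hK : Fintype.card K = q ^ t := by
    rw [← Nat.card_eq_fintype_card, GaloisField.card 2 _ (by positivity), hq, ← pow_mul]
  obtain ⟨π, c, h⟩ := exists_tw_many (K := K) hq1 hK hs (w := q ^ t / s) (Nat.mul_div_le _ _)
  refine ⟨ec (tw q t π c), kc s (tw q t π c), ?_, ?_, K × K, inferInstance, tw q t π c,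
    tw_free hq ht (by simpa using hb), rfl, le_rfl⟩
  · refine (ec_tw_le hq1).trans (le_of_eq ?_)
    rw [hK, show 2 * (t + 1) - 1 = t + 1 + t by omega]
    ring
  · have hs2 : s ≤ s.choose 2 := by
      rw [Nat.choose_two_right, Nat.le_div_iff_mul_le (by norm_num)]
      exact Nat.mul_le_mul_left _ (by omega)
    have h1 : q ^ t ≤ 2 * s * (q ^ t / s) := by
      have h2 : s ≤ q ^ t := he.trans (Nat.le_self_pow ht.ne' q)
      have h3 := Nat.div_add_mod (q ^ t) s
      have h4 := Nat.mod_lt (q ^ t) (show 0 < s by omega)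
      have h5 : 1 ≤ q ^ t / s := (Nat.le_div_iff_mul_le (by omega)).2 (by omega)
      nlinarith
    refine Nat.le_of_mul_le_mul_right (c := q ^ (s.choose 2 - s)) ?_ (by positivity)
    calc q ^ E * q ^ (s.choose 2 - s) = (q ^ t) ^ s := by
          have h2 : E + (s.choose 2 - s) = t * s := by
            rw [add_mul, one_mul] at hE
            omega
          rw [← pow_add, h2, pow_mul q]
      _ ≤ (2 * s * (q ^ t / s)) ^ s := Nat.pow_le_pow_left h1 s
      _ = (2 * s) ^ s * (q ^ t / s) ^ s := mul_pow _ _ _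
      _ ≤ (2 * s) ^ s * (kc s (tw q t π c) * q ^ (s.choose 2 - s)) := Nat.mul_le_mul_left _ h
      _ = _ := by ring

open Asymptotics Filter in
theorem rpow_isBigO_mex {a s b : ℕ} (ha : 2 ≤ a) (hs : 3 ≤ s)
    (hb : (s - 1) * (a - 1).factorial < b) {E : ℕ} (hE : E + s.choose 2 = a * s) :
    (fun m : ℕ => (m : ℝ) ^ ((E : ℝ) / (2 * a - 1))) =O[atTop]
      (fun m : ℕ => (mex s m (completeBipartiteGraph (Fin a) (Fin b)) : ℝ)) := by
  refine IsBigO.of_bound (2 ^ E * (2 * s) ^ s) ?_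
  obtain ⟨n, hn⟩ : ∃ n, 2 * a - 1 = n := ⟨_, rfl⟩
  have hn0 : n ≠ 0 := by omega
  have hnR : (2 * a - 1 : ℝ) = n := by
    rw [← hn, Nat.cast_sub (by omega)]; push_cast; ring
  filter_upwards [eventually_ge_atTop ((2 ^ n) ^ s)] with m hm
  have h2n : 1 < 2 ^ n := Nat.one_lt_two_pow hn0
  have hm0 : m ≠ 0 := by
    have : 0 < (2 ^ n) ^ s := by positivity
    omega
  set e := Nat.log (2 ^ n) m with he
  have hle : (2 ^ n) ^ e ≤ m := Nat.pow_log_le_self _ hm0
  have hlt : m < (2 ^ n) ^ (e + 1) := Nat.lt_pow_succ_log_self h2n m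
  have hse : s ≤ e := Nat.le_log_of_pow_le h2n hm
  obtain ⟨m₀, k, hm₀, hk, hach⟩ := exists_graph ha hs hb hE (e := e)
    (hse.trans Nat.lt_two_pow_self.le)
  rw [hn, ← pow_mul, mul_comm, pow_mul] at hm₀
  have hb0 : 1 ≤ b := by omega
  have hcl := closed_free (completeBipartite_preconnected (a := a) (b := b) (by omega) hb0)
    (by simp; omega)
  have h1 := (hach.pad hcl (by omega) (hm₀.trans hle)).le_mex (by omega) (fun _ _ h => h)
  have h2 : ((2 : ℝ) ^ e) ^ E ≤ (2 * s) ^ s * mex s m (completeBipartiteGraph (Fin a) (Fin b)) := by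
    exact_mod_cast hk.trans (Nat.mul_le_mul_left _ h1)
  have h3 : (m : ℝ) ≤ ((2 : ℝ) ^ (e + 1)) ^ n := by
    rw [← pow_mul, mul_comm, pow_mul]
    exact_mod_cast hlt.le
  have h4 : (m : ℝ) ^ ((E : ℝ) / n) ≤ ((2 : ℝ) ^ (e + 1)) ^ E := by
    refine (Real.rpow_le_rpow (by positivity) h3 (by positivity)).trans (le_of_eq ?_)
    rw [← Real.rpow_natCast _ n, ← Real.rpow_mul (by positivity), ← Real.rpow_natCast _ E]
    congr 1
    field_simp
  rw [Real.norm_natCast, Real.norm_of_nonneg (by positivity), hnR]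
  calc (m : ℝ) ^ ((E : ℝ) / n) ≤ ((2 : ℝ) ^ (e + 1)) ^ E := h4
    _ = 2 ^ E * ((2 : ℝ) ^ e) ^ E := by rw [pow_succ, mul_pow, mul_comm]
    _ ≤ 2 ^ E * ((2 * s) ^ s * mex s m (completeBipartiteGraph (Fin a) (Fin b))) := by gcongr
    _ = _ := by ring

end Pool.Agent.P.MP_80f86c_co.Kab
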