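import Pool.Agent.P.MP_80f86c_co.Kab.Lower

/-!
Cliques of any size in twisted multipartite projective norm graphs, from an orbit of `SL₂`.
-/

namespace Pool.Agent.P.MP_80f86c_co.Kab

open SimpleGraph Finset

section

variable {K : Type} [Field K] [CharP K 2] {s q t : ℕ}

lemma card_pattern [Fintype K] [DecidableEq K] {X : Fin s → K} (hX : Function.Injective X) :
    #(univ : Finset (K → Fin s)) ≤ s ^ s * #{π ∈ (univ : Finset (K → Fin s)) | ∀ i, π (X i) = i} := by
  classical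
  let Ψ : (K → Fin s) → (Fin s → Fin s) × (K → Fin s) := fun π =>
    (fun i => π (X i), Function.extend X id π)
  have h1 : ∀ π ∈ (univ : Finset (K → Fin s)), Ψ π ∈ (univ : Finset (Fin s → Fin s)) ×ˢ
      {π ∈ (univ : Finset (K → Fin s)) | ∀ i, π (X i) = i} := by
    intro π _
    simp [Ψ, hX.extend_apply]
  have h2 : Set.InjOn Ψ (univ : Finset (K → Fin s)) := by
    intro π _ π' _ h
    funext x
    by_cases hx : ∃ i, X i = x
    · obtain ⟨i, rfl⟩ := hx
      exact congrFun (congrArg Prod.fst h) i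
    · have := congrFun (congrArg Prod.snd h) x
      simpa only [Ψ, Function.extend_apply' _ _ _ hx] using this
  have := card_le_card_of_injOn Ψ h1 h2
  rwa [card_product, card_univ (α := Fin s → Fin s), Fintype.card_fun, Fintype.card_fin] at this

lemma exists_tw_orbit [Fintype K] (hK : Fintype.card K = q ^ t) (hs : 3 ≤ s) (hsq : s ≤ q ^ t) :
    ∃ (π : K → Fin s) (c : Sym2 (Fin s) → K),
      q ^ t * (q ^ t - 1) * (q ^ t - s) ≤ s ^ s * kc s (tw q t π c) := by
  classical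
  obtain ⟨τ⟩ : Nonempty (Fin s ↪ K) :=
    Function.Embedding.nonempty_of_card_le (by simpa [hK] using hsq)
  let c : Sym2 (Fin s) → K :=
    Sym2.lift ⟨fun i j => nrm q t (τ i + τ j), fun i j => by simp only; rw [add_comm]⟩
  let A : Finset ((K × K) × K) := (univ ×ˢ univ.erase 0) ×ˢ (univ \ univ.image τ)
  have hA : q ^ t * (q ^ t - 1) * (q ^ t - s) ≤ #A := by
    rw [card_product, card_product, card_erase_of_mem (mem_univ _), card_univ, hK]
    refine Nat.mul_le_mul_left _ ?_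
    rw [card_sdiff_of_subset (subset_univ _), card_univ, hK,
      card_image_of_injective _ τ.injective, card_univ, Fintype.card_fin]
  have hA1 : ∀ p ∈ A, p.1.2 ≠ 0 ∧ ∀ i, τ i + p.2 ≠ 0 := by
    intro p hp
    obtain ⟨h1, h2⟩ := mem_product.1 hp
    refine ⟨(mem_erase.1 (mem_product.1 h1).2).1, fun i => add_ne_zero_of_ne fun h => ?_⟩
    exact (mem_sdiff.1 h2).2 (mem_image.2 ⟨i, mem_univ _, h⟩)
  let X : (K × K) × K → Fin s → K := fun p i => p.1.1 + p.1.2 ^ 2 / (τ i + p.2)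
  have hXX : ∀ p ∈ A, ∀ i j, (X p i + X p j) * ((τ i + p.2) * (τ j + p.2)) =
      p.1.2 ^ 2 * (τ i + τ j) := by
    intro p hp i j
    have h1 := (hA1 p hp).2 i
    have h2 := (hA1 p hp).2 j
    simp only [X]
    field_simp
    have h3 : (2 : K) = 0 := CharTwo.two_eq_zero
    linear_combination (p.1.1 * (τ i + p.2) * (τ j + p.2) + p.1.2 ^ 2 * p.2) * h3
  have hXinj : ∀ p ∈ A, Function.Injective (X p) := by
    intro p hp i j h
    by_contra hij
    have h1 := hXX p hp i j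
    rw [h, CharTwo.add_self_eq_zero, zero_mul] at h1
    exact mul_ne_zero (pow_ne_zero 2 (hA1 p hp).1)
      (add_ne_zero_of_ne fun h' => hij (τ.injective h')) h1.symm
  have hXp : ∀ p ∈ A, ∀ p' ∈ A, X p = X p' → p = p' := by
    intro p hp p' hp' h
    let i₀ : Fin s := ⟨0, by omega⟩
    let i₁ : Fin s := ⟨1, by omega⟩
    let i₂ : Fin s := ⟨2, by omega⟩
    have h01 : τ i₀ + τ i₁ ≠ 0 := add_ne_zero_of_ne fun h' => by simpa [i₀, i₁] using τ.injective h'
    have h02 : τ i₀ + τ i₂ ≠ 0 := add_ne_zero_of_ne fun h' => by simpa [i₀, i₂] using τ.injective h'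
    have h12 : τ i₁ + τ i₂ ≠ 0 := add_ne_zero_of_ne fun h' => by simpa [i₁, i₂] using τ.injective h'
    have h3 : (2 : K) = 0 := CharTwo.two_eq_zero
    have key : ∀ i j, τ i + τ j ≠ 0 → p.1.2 ^ 2 * ((τ i + p'.2) * (τ j + p'.2)) =
        p'.1.2 ^ 2 * ((τ i + p.2) * (τ j + p.2)) := by
      intro i j hij
      have e1 := hXX p hp i j
      have e2 := hXX p' hp' i j
      rw [← h] at e2
      refine mul_right_cancel₀ hij ?_
      linear_combination ((τ i + p.2) * (τ j + p.2)) * e2 - ((τ i + p'.2) * (τ j + p'.2)) * e1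
    have k1 := key i₀ i₁ h01
    have k2 := key i₀ i₂ h02
    have k3 : p.1.2 ^ 2 * (τ i₀ + p'.2) = p'.1.2 ^ 2 * (τ i₀ + p.2) := by
      refine mul_right_cancel₀ h12 ?_
      linear_combination k1 + k2 - (p.1.2 ^ 2 * (τ i₀ + p'.2) * p'.2 -
        p'.1.2 ^ 2 * (τ i₀ + p.2) * p.2) * h3
    have k4 : p'.2 = p.2 := by
      have k5 : p.1.2 ^ 2 * (τ i₀ + p'.2) * (τ i₁ + p'.2) =
          p.1.2 ^ 2 * (τ i₀ + p'.2) * (τ i₁ + p.2) := by
        linear_combination k1 - (τ i₁ + p.2) * k3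
      exact add_left_cancel (mul_left_cancel₀
        (mul_ne_zero (pow_ne_zero 2 (hA1 p hp).1) ((hA1 p' hp').2 i₀)) k5)
    rw [k4] at k3
    have k6 : p.1.2 ^ 2 = p'.1.2 ^ 2 := mul_right_cancel₀ ((hA1 p hp).2 i₀) k3
    have k7 : p.1.2 = p'.1.2 := by
      have : (p.1.2 - p'.1.2) ^ 2 = 0 := by
        linear_combination k6 + (p'.1.2 ^ 2 - p.1.2 * p'.1.2) * h3
      exact sub_eq_zero.1 (pow_eq_zero_iff (two_ne_zero) |>.1 this)
    have k8 := congrFun h i₀
    simp only [X, k4, k7] at k8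
    exact Prod.ext (Prod.ext (add_right_cancel k8) k7) k4.symm
  let vx : (K × K) × K → Fin s → K × K := fun p i =>
    (X p i, nrm q t p.1.2 / nrm q t (τ i + p.2))
  have hfib : ∀ π : K → Fin s, #{p ∈ A | ∀ i, π (X p i) = i} ≤ kc s (tw q t π c) := by
    intro π
    rw [← Set.ncard_coe_finset]
    refine Set.ncard_le_ncard_of_injOn (fun p => univ.image (vx p)) ?_ ?_ (Set.toFinite _)
    · intro p hp
      obtain ⟨hpA, hpπ⟩ := mem_filter.1 (mem_coe.1 hp)
      have hinj : Function.Injective (vx p) := fun i j h => hXinj p hpA (congrArg Prod.fst h)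
      have hfix : ∀ i, (vx p i).2 ^ q = (vx p i).2 := fun i => by
        simp only [vx]
        rw [div_pow, nrm_pow (hA1 p hpA).1 (by rw [← hK, FiniteField.pow_card]),
          nrm_pow ((hA1 p hpA).2 i) (by rw [← hK, FiniteField.pow_card])]
      refine ⟨?_, by rw [card_image_of_injective _ hinj, card_univ, Fintype.card_fin]⟩
      intro u hu v hv huv
      obtain ⟨i, -, rfl⟩ := mem_image.1 (mem_coe.1 hu)
      obtain ⟨j, -, rfl⟩ := mem_image.1 (mem_coe.1 hv)
      have hij : i ≠ j := fun h => huv (by rw [h])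
      have hi : π (vx p i).1 = i := hpπ i
      have hj : π (vx p j).1 = j := hpπ j
      refine ⟨by rw [hi, hj]; exact hij, hfix i, hfix j, ?_⟩
      rw [hi, hj]
      have h1 := congrArg (nrm q t) (hXX p hpA i j)
      rw [nrm_mul, nrm_mul, nrm_mul, sq, nrm_mul] at h1
      have h2 := nrm_ne_zero q t ((hA1 p hpA).2 i)
      have h3 := nrm_ne_zero q t ((hA1 p hpA).2 j)
      simp only [c, vx, Sym2.lift_mk]
      field_simp
      linear_combination h1
    · intro p hp p' hp' h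
      obtain ⟨hpA, hpπ⟩ := mem_filter.1 (mem_coe.1 hp)
      obtain ⟨hpA', hpπ'⟩ := mem_filter.1 (mem_coe.1 hp')
      refine hXp p hpA p' hpA' (funext fun i => ?_)
      have h1 : vx p i ∈ univ.image (vx p') := by
        simp only at h
        rw [← h]; exact mem_image_of_mem _ (mem_univ i)
      obtain ⟨j, -, hj⟩ := mem_image.1 h1
      have h2 : X p' j = X p i := congrArg Prod.fst hj
      have h3 : j = i := by rw [← hpπ' j, h2, hpπ i]
      rw [← h2, h3]
  have : Nonempty (K → Fin s) := ⟨fun _ => ⟨0, by omega⟩⟩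
  obtain ⟨π₀, -, hπ₀⟩ := exists_max_image (univ : Finset (K → Fin s))
    (fun π => kc s (tw q t π c)) univ_nonempty
  refine ⟨π₀, c, hA.trans ?_⟩
  have hpos : 0 < #(univ : Finset (K → Fin s)) := card_pos.2 univ_nonempty
  refine Nat.le_of_mul_le_mul_right ?_ hpos
  calc #A * #(univ : Finset (K → Fin s)) = ∑ _p ∈ A, #(univ : Finset (K → Fin s)) := by
        rw [sum_const, smul_eq_mul]
    _ ≤ ∑ p ∈ A, s ^ s * #{π ∈ (univ : Finset (K → Fin s)) | ∀ i, π (X p i) = i} :=
        sum_le_sum fun p hp => card_pattern (hXinj p hp)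
    _ = s ^ s * ∑ π : K → Fin s, #{p ∈ A | ∀ i, π (X p i) = i} := by
        rw [← mul_sum]
        simp only [card_filter]
        rw [sum_comm]
    _ ≤ s ^ s * ∑ _π : K → Fin s, kc s (tw q t π₀ c) :=
        Nat.mul_le_mul_left _ (sum_le_sum fun π _ => (hfib π).trans (hπ₀ π (mem_univ _)))
    _ = _ := by rw [sum_const, smul_eq_mul]; ring

end

lemma exists_graph_orbit {a s b : ℕ} (ha : 2 ≤ a) (hs : 3 ≤ s)
    (hb : (s - 1) * (a - 1).factorial < b) {e : ℕ} (he : s < e) :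
    ∃ m k, m ≤ (2 ^ e) ^ (2 * a - 1) ∧ (2 ^ e) ^ (3 * (a - 1)) ≤ 4 * s ^ s * k ∧
      Ach (fun _ G => (completeBipartiteGraph (Fin a) (Fin b)).Free G) s m k := by
  classical
  obtain ⟨t, rfl⟩ : ∃ t, a = t + 1 := ⟨a - 1, by omega⟩
  have ht : 0 < t := by omega
  have he0 : e ≠ 0 := by omega
  set q := 2 ^ e with hq
  have hsq : 2 * s ≤ q := by
    have h1 : 2 ^ (s + 1) ≤ 2 ^ e := Nat.pow_le_pow_right (by norm_num) he
    have h2 : s < 2 ^ s := Nat.lt_two_pow_self
    rw [pow_succ] at h1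
    omega
  have hq1 : 1 < q := by omega
  have hqt : q ≤ q ^ t := Nat.le_self_pow ht.ne' q
  let K := GaloisField 2 (e * t)
  have := Fintype.ofFinite K
  have hK : Fintype.card K = q ^ t := by
    rw [← Nat.card_eq_fintype_card, GaloisField.card 2 _ (by positivity), hq, ← pow_mul]
  obtain ⟨π, c, h⟩ := exists_tw_orbit (K := K) hK hs (by omega)
  refine ⟨ec (tw q t π c), kc s (tw q t π c), ?_, ?_, K × K, inferInstance, tw q t π c,
    tw_free hq ht (by simpa using hb), rfl, le_rfl⟩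
  · refine (ec_tw_le hq1).trans (le_of_eq ?_)
    rw [hK, show 2 * (t + 1) - 1 = t + 1 + t by omega]
    ring
  · calc q ^ (3 * (t + 1 - 1)) = q ^ t * q ^ t * q ^ t := by rw [Nat.add_sub_cancel]; ring
      _ ≤ q ^ t * (2 * (q ^ t - 1)) * (2 * (q ^ t - s)) :=
          Nat.mul_le_mul (Nat.mul_le_mul_left _ (by omega)) (by omega)
      _ = 4 * (q ^ t * (q ^ t - 1) * (q ^ t - s)) := by ring
      _ ≤ 4 * (s ^ s * kc s (tw q t π c)) := Nat.mul_le_mul_left _ h
      _ = _ := by ring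

open Asymptotics Filter in
theorem rpow_isBigO_mex_orbit {a s b : ℕ} (ha : 2 ≤ a) (hs : 3 ≤ s)
    (hb : (s - 1) * (a - 1).factorial < b) :
    (fun m : ℕ => (m : ℝ) ^ (((3 * (a - 1) : ℕ) : ℝ) / (2 * a - 1))) =O[atTop]
      (fun m : ℕ => (mex s m (completeBipartiteGraph (Fin a) (Fin b)) : ℝ)) := by
  set E := 3 * (a - 1) with hE
  refine IsBigO.of_bound (2 ^ E * (4 * s ^ s)) ?_
  obtain ⟨n, hn⟩ : ∃ n, 2 * a - 1 = n := ⟨_, rfl⟩
  have hn0 : n ≠ 0 := by omega
  have hnR : (2 * a - 1 : ℝ) = n := by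
    rw [← hn, Nat.cast_sub (by omega)]; push_cast; ring
  filter_upwards [eventually_ge_atTop ((2 ^ n) ^ (s + 1))] with m hm
  have h2n : 1 < 2 ^ n := Nat.one_lt_two_pow hn0
  have hm0 : m ≠ 0 := by
    have : 0 < (2 ^ n) ^ (s + 1) := by positivity
    omega
  set e := Nat.log (2 ^ n) m with he
  have hle : (2 ^ n) ^ e ≤ m := Nat.pow_log_le_self _ hm0
  have hlt : m < (2 ^ n) ^ (e + 1) := Nat.lt_pow_succ_log_self h2n m
  have hse : s + 1 ≤ e := Nat.le_log_of_pow_le h2n hm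
  obtain ⟨m₀, k, hm₀, hk, hach⟩ := exists_graph_orbit ha hs hb (e := e) hse
  rw [hn, ← pow_mul, mul_comm, pow_mul] at hm₀
  have hb0 : 1 ≤ b := by omega
  have hcl := closed_free (completeBipartite_preconnected (a := a) (b := b) (by omega) hb0)
    (by simp; omega)
  have h1 := (hach.pad hcl (by omega) (hm₀.trans hle)).le_mex (by omega) (fun _ _ h => h)
  have h2 : ((2 : ℝ) ^ e) ^ E ≤ 4 * s ^ s * mex s m (completeBipartiteGraph (Fin a) (Fin b)) := by
    exact_mod_cast hk.trans (Nat.mul_le_mul_left _ h1)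
  have h3 : (m : ℝ) ≤ ((2 : ℝ) ^ (e + 1)) ^ n := by
    rw [← pow_mul, mul_comm, pow_mul]
    exact_mod_cast hlt.le
  have h4 : (m : ℝ) ^ ((E : ℝ) / n) ≤ ((2 : ℝ) ^ (e + 1)) ^ E := by
    refine (Real.rpow_le_rpow (by positivity) h3 (by positivity)).trans (le_of_eq ?_)
    rw [← Real.rpow_natCast _ n, ← Real.rpow_mul (by positivity), ← Real.rpow_natCast _ E]
    congr 1
    field_simp
  rw [Real.norm_natCast, Real.norm_of_nonneg (by positivity), hnR]
  calc (m : ℝ) ^ ((E : ℝ) / n) ≤ ((2 : ℝ) ^ (e + 1)) ^ E := h4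
    _ = 2 ^ E * ((2 : ℝ) ^ e) ^ E := by rw [pow_succ, mul_pow, mul_comm]
    _ ≤ 2 ^ E * (4 * s ^ s * mex s m (completeBipartiteGraph (Fin a) (Fin b))) := by gcongr
    _ = _ := by ring

end Pool.Agent.P.MP_80f86c_co.Kab
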