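import Pool.Agent.P.MP_80f86c_co.Basic

/-!
Upper bound for clique counts in `K_{a,b}`-free graphs with `m` edges.
-/

namespace Pool.Agent.P.MP_80f86c_co.Kab

open SimpleGraph Finset

/-- `E a k = a + (a - 1) + ⋯` with `min a k` terms. -/
def E : ℕ → ℕ → ℕ
  | 0, _ => 0
  | _ + 1, 0 => 0
  | a + 1, k + 1 => a + 1 + E a k

lemma E_zero_right (a : ℕ) : E a 0 = 0 := by cases a <;> rfl

lemma E_le (a k : ℕ) : E a k ≤ a * (a + 1) := by
  induction a generalizing k with
  | zero => simp [E]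
  | succ a ih =>
    cases k with
    | zero => simp [E]
    | succ k =>
      have := ih k
      simp only [E]
      nlinarith

lemma E_add_choose (a k : ℕ) (h : k ≤ a + 1) : E a k + k.choose 2 = a * k := by
  induction a generalizing k with
  | zero =>
    have : k = 0 ∨ k = 1 := by omega
    rcases this with rfl | rfl <;> simp [E]
  | succ a ih =>
    cases k with
    | zero => simp [E]
    | succ k =>
      have := ih k (by omega)
      simp only [E, Nat.choose_succ_succ' k 1, Nat.choose_one_right]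
      nlinarith

lemma E_min (a k : ℕ) : E a k = E a (min k a) := by
  induction a generalizing k with
  | zero => simp [E]
  | succ a ih =>
    cases k with
    | zero => simp
    | succ k => rw [Nat.succ_min_succ]; simp only [E]; rw [← ih k]

section

variable {V : Type} [DecidableEq V] (G : SimpleGraph V) [DecidableRel G.Adj]

/-- neighbours inside `S` -/
def nbr (S : Finset V) (v : V) : Finset V := S.filter (G.Adj v)

/-- every `a` vertices of `S` have at most `b` common neighbours in `S` -/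
def Cod (S : Finset V) (a b : ℕ) : Prop :=
  ∀ T ⊆ S, #T = a → #(S.filter fun w => ∀ u ∈ T, G.Adj u w) ≤ b

open Classical in
/-- the `k`-cliques inside `S` -/
noncomputable def cls (k : ℕ) (S : Finset V) : Finset (Finset V) :=
  (S.powersetCard k).filter fun T => G.IsClique (T : Set V)

variable {G}

lemma mem_cls {k : ℕ} {S T : Finset V} :
    T ∈ cls G k S ↔ T ⊆ S ∧ #T = k ∧ G.IsClique (T : Set V) := by
  simp [cls, and_assoc]

lemma Cod.mono {S S' : Finset V} {a b : ℕ} (h : Cod G S a b) (hS : S' ⊆ S) : Cod G S' a b :=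
  fun T hT hc => (card_le_card (filter_subset_filter _ hS)).trans (h T (hT.trans hS) hc)

lemma Cod.link {S : Finset V} {a b : ℕ} (h : Cod G S (a + 1) b) {v : V} (hv : v ∈ S) :
    Cod G (nbr G S v) a b := by
  intro T hT hc
  have hvT : v ∉ T := fun hv' => G.irrefl (mem_filter.1 (hT hv')).2
  refine le_trans (card_le_card ?_) (h (insert v T) ?_ (by rw [card_insert_of_notMem hvT, hc]))
  · intro w hw
    obtain ⟨hw1, hw2⟩ := mem_filter.1 hw
    obtain ⟨hw3, hw4⟩ := mem_filter.1 hw1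
    refine mem_filter.2 ⟨hw3, fun u hu => ?_⟩
    rcases mem_insert.1 hu with rfl | hu
    · exact hw4
    · exact hw2 u hu
  · exact insert_subset hv (hT.trans (filter_subset _ _))

lemma card_cls_split (k : ℕ) (S L : Finset V) :
    #(cls G (k + 1) S) ≤ ∑ v ∈ L, #(cls G k (nbr G S v)) + #(cls G (k + 1) (S \ L)) := by
  have hsub : cls G (k + 1) S ⊆
      L.biUnion (fun v => (cls G k (nbr G S v)).image (insert v)) ∪ cls G (k + 1) (S \ L) := by
    intro T hT
    obtain ⟨h1, h2, h3⟩ := mem_cls.1 hT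
    by_cases hex : ∃ v ∈ T, v ∈ L
    · obtain ⟨v, hv, hvL⟩ := hex
      refine mem_union_left _ (mem_biUnion.2 ⟨v, hvL, mem_image.2 ⟨T.erase v, ?_, insert_erase hv⟩⟩)
      refine mem_cls.2 ⟨fun w hw => ?_, by rw [card_erase_of_mem hv, h2]; rfl,
        h3.subset (by simp)⟩
      obtain ⟨hwv, hwT⟩ := mem_erase.1 hw
      exact mem_filter.2 ⟨h1 hwT, h3 hv hwT hwv.symm⟩
    · push Not at hex
      exact mem_union_right _ (mem_cls.2 ⟨fun w hw => mem_sdiff.2 ⟨h1 hw, hex w hw⟩, h2, h3⟩)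
  refine (card_le_card hsub).trans ((card_union_le _ _).trans (Nat.add_le_add_right ?_ _))
  exact card_biUnion_le.trans (sum_le_sum fun v _ => card_image_le)

lemma cls_empty (k : ℕ) : cls G (k + 1) (∅ : Finset V) = ∅ := by
  refine eq_empty_of_forall_notMem fun T hT => ?_
  obtain ⟨h1, h2, -⟩ := mem_cls.1 hT
  rw [subset_empty.1 h1] at h2
  simp at h2

lemma card_cls_le_two_pow (k : ℕ) (S : Finset V) : #(cls G k S) ≤ 2 ^ #S := by
  rw [← card_powerset]
  exact card_le_card fun T hT => mem_powerset.2 (mem_cls.1 hT).1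

lemma card_cls_zero (S : Finset V) : #(cls G 0 S) ≤ 1 := by
  refine card_le_one.2 fun T hT T' hT' => ?_
  rw [card_eq_zero.1 (mem_cls.1 hT).2.1, card_eq_zero.1 (mem_cls.1 hT').2.1]

lemma sum_choose_le {S : Finset V} {a b : ℕ} (h : Cod G S a b) :
    ∑ v ∈ S, (#(nbr G S v)).choose a ≤ b * #S ^ a := by
  have h1 : ∀ v ∈ S, (#(nbr G S v)).choose a =
      #((S.powersetCard a).filter fun T => ∀ u ∈ T, G.Adj u v) := by
    intro v _
    rw [← card_powersetCard]
    congr 1
    ext T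
    simp only [mem_powersetCard, mem_filter, nbr, subset_iff]
    constructor
    · rintro ⟨h1, h2⟩
      exact ⟨⟨fun x hx => (h1 hx).1, h2⟩, fun u hu => (h1 hu).2.symm⟩
    · rintro ⟨⟨h1, h2⟩, h3⟩
      exact ⟨fun x hx => ⟨h1 hx, (h3 x hx).symm⟩, h2⟩
  rw [sum_congr rfl h1]
  simp only [card_filter]
  rw [sum_comm]
  have h2 : ∀ T ∈ S.powersetCard a, (∑ v ∈ S, if ∀ u ∈ T, G.Adj u v then 1 else 0) ≤ b := by
    intro T hT
    rw [← card_filter]
    exact h T (mem_powersetCard.1 hT).1 (mem_powersetCard.1 hT).2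
  refine (sum_le_card_nsmul _ _ _ h2).trans ?_
  rw [card_powersetCard, smul_eq_mul, mul_comm]
  exact Nat.mul_le_mul_left _ (Nat.choose_le_pow _ _)

lemma pow_le_add_choose (d a : ℕ) : d ^ a ≤ (2 * a) ^ a + 2 ^ a * a.factorial * d.choose a := by
  rcases le_total d (2 * a) with h | h
  · exact (Nat.pow_le_pow_left h a).trans (Nat.le_add_right _ _)
  · refine le_trans ?_ (Nat.le_add_left _ _)
    calc d ^ a ≤ (2 * (d + 1 - a)) ^ a := Nat.pow_le_pow_left (by omega) a
      _ = 2 ^ a * (d + 1 - a) ^ a := mul_pow _ _ _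
      _ ≤ 2 ^ a * d.descFactorial a := Nat.mul_le_mul_left _ (Nat.pow_sub_le_descFactorial d a)
      _ = _ := by rw [Nat.descFactorial_eq_factorial_mul_choose, mul_assoc]

lemma sum_pow_le {S : Finset V} {a b : ℕ} (ha : a ≠ 0) (h : Cod G S a b) :
    ∑ v ∈ S, #(nbr G S v) ^ a ≤ ((2 * a) ^ a + 2 ^ a * a.factorial * b) * #S ^ a := by
  refine (sum_le_sum fun v _ => pow_le_add_choose _ a).trans ?_
  rw [sum_add_distrib, sum_const, ← mul_sum, smul_eq_mul, add_mul, mul_comm (#S)]
  refine add_le_add (Nat.mul_le_mul_left _ (Nat.le_self_pow ha _)) ?_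
  rw [mul_assoc _ b]
  exact Nat.mul_le_mul_left _ (sum_choose_le h)

end

lemma exists_root (d : ℝ) (hd : 0 ≤ d) {a : ℕ} (ha : a ≠ 0) : ∃ y : ℝ, 0 ≤ y ∧ y ^ a = d :=
  ⟨d ^ ((a : ℝ)⁻¹), Real.rpow_nonneg hd _, Real.rpow_inv_natCast_pow hd ha⟩

/-- the vertex version, with the scale `x` where `|S| ≤ x ^ a` -/
theorem card_cls_le (b a k : ℕ) : ∃ C : ℝ, 0 ≤ C ∧ ∀ (V : Type) [DecidableEq V] (G : SimpleGraph V)
    [DecidableRel G.Adj] (S : Finset V) (x : ℝ), 1 ≤ x → Cod G S a b →
    (a = 0 ∨ (#S : ℝ) ≤ x ^ a) → (#(cls G k S) : ℝ) ≤ C * x ^ E a k := by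
  induction a generalizing k with
  | zero =>
    refine ⟨2 ^ b, by positivity, fun V _ G _ S x _ h _ => ?_⟩
    have h1 : #S ≤ b := by simpa using h ∅ (empty_subset _) rfl
    have h2 := (card_cls_le_two_pow (G := G) k S).trans (Nat.pow_le_pow_right (by norm_num) h1)
    simp only [E, pow_zero, mul_one]
    exact_mod_cast h2
  | succ a ih =>
    cases k with
    | zero =>
      refine ⟨1, zero_le_one, fun V _ G _ S x _ _ _ => ?_⟩
      simp only [E, pow_zero, mul_one]
      exact_mod_cast card_cls_zero S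
    | succ k =>
      obtain ⟨C, hC0, hC⟩ := ih k
      set C' : ℕ := (2 * (a + 1)) ^ (a + 1) + 2 ^ (a + 1) * (a + 1).factorial * b with hC'
      refine ⟨C * (1 + C'), by positivity, fun V _ G _ S x hx h hS => ?_⟩
      have hS' : (#S : ℝ) ≤ x ^ (a + 1) := hS.resolve_left (by omega)
      have hx0 : 0 < x := by linarith
      obtain ⟨r, hr⟩ : ∃ r, a * (a + 1) = E a k + r := ⟨_, (Nat.add_sub_cancel' (E_le a k)).symm⟩
      have hv : ∀ v ∈ S, (#(cls G k (nbr G S v)) : ℝ) * x ^ r ≤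
          C * (x ^ (a * (a + 1)) + (#(nbr G S v) : ℝ) ^ (a + 1)) := by
        intro v hv
        by_cases hd : a = 0 ∨ (#(nbr G S v) : ℝ) ≤ x ^ a
        · have h1 := hC V G _ x hx (h.link hv) hd
          calc (#(cls G k (nbr G S v)) : ℝ) * x ^ r ≤ C * x ^ E a k * x ^ r := by gcongr
            _ = C * x ^ (a * (a + 1)) := by rw [hr, pow_add, mul_assoc]
            _ ≤ _ := by gcongr; exact le_add_of_nonneg_right (by positivity)
        · push Not at hd
          obtain ⟨y, hy0, hy⟩ := exists_root (#(nbr G S v) : ℝ) (by positivity) hd.1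
          have hxy : x ≤ y := by
            refine (pow_le_pow_iff_left₀ hx0.le hy0 hd.1).1 ?_
            rw [hy]; exact hd.2.le
          have h1 := hC V G _ y (hx.trans hxy) (h.link hv) (Or.inr hy.ge)
          calc (#(cls G k (nbr G S v)) : ℝ) * x ^ r ≤ C * y ^ E a k * y ^ r := by gcongr
            _ = C * (#(nbr G S v) : ℝ) ^ (a + 1) := by
                rw [mul_assoc, ← pow_add, ← hr, pow_mul, hy]
            _ ≤ _ := by gcongr; exact le_add_of_nonneg_left (by positivity)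
      have h1 : (#(cls G (k + 1) S) : ℝ) ≤ ∑ v ∈ S, (#(cls G k (nbr G S v)) : ℝ) := by
        have := card_cls_split (G := G) k S S
        rw [sdiff_self, bot_eq_empty, cls_empty, card_empty, add_zero] at this
        exact_mod_cast this
      have h2 : ∑ v ∈ S, (#(nbr G S v) : ℝ) ^ (a + 1) ≤ C' * (#S : ℝ) ^ (a + 1) := by
        exact_mod_cast sum_pow_le (Nat.succ_ne_zero a) h
      have h3 : (#(cls G (k + 1) S) : ℝ) * x ^ r ≤ C * (1 + C') * x ^ E (a + 1) (k + 1) * x ^ r := by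
        calc (#(cls G (k + 1) S) : ℝ) * x ^ r
            ≤ (∑ v ∈ S, (#(cls G k (nbr G S v)) : ℝ)) * x ^ r := by gcongr
          _ = ∑ v ∈ S, (#(cls G k (nbr G S v)) : ℝ) * x ^ r := sum_mul _ _ _
          _ ≤ ∑ v ∈ S, C * (x ^ (a * (a + 1)) + (#(nbr G S v) : ℝ) ^ (a + 1)) := sum_le_sum hv
          _ = C * (#S * x ^ (a * (a + 1)) + ∑ v ∈ S, (#(nbr G S v) : ℝ) ^ (a + 1)) := by
              rw [← mul_sum, sum_add_distrib, sum_const, nsmul_eq_mul]
          _ ≤ C * (x ^ (a + 1) * x ^ (a * (a + 1)) + C' * (x ^ (a + 1)) ^ (a + 1)) := by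
              gcongr
              exact h2.trans (by gcongr)
          _ = C * (1 + C') * x ^ ((a + 1) + a * (a + 1)) := by ring
          _ = _ := by
              rw [hr]
              simp only [E]
              ring
      exact le_of_mul_le_mul_right h3 (by positivity)

section

variable {V : Type} [Fintype V] [DecidableEq V] (G : SimpleGraph V) [DecidableRel G.Adj]

lemma cod_of_free {a b : ℕ} (h : (completeBipartiteGraph (Fin a) (Fin b)).Free G) :
    Cod G univ a b := by
  intro T _ hT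
  by_contra hlt
  push Not at hlt
  apply h
  obtain ⟨U, hU, hcard⟩ := Finset.exists_subset_card_eq hlt.le
  let f : Fin a → V := fun i => (T.equivFin.symm (Fin.cast hT.symm i) : V)
  let g : Fin b → V := fun j => (U.equivFin.symm (Fin.cast hcard.symm j) : V)
  have hadj : ∀ i j, G.Adj (f i) (g j) := fun i j => by
    have h1 := hU (U.equivFin.symm (Fin.cast hcard.symm j)).2
    simp only [Finset.mem_filter, mem_univ, true_and] at h1
    exact h1 _ (T.equivFin.symm (Fin.cast hT.symm i)).2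
  have hf : Function.Injective f := fun i j hij =>
    Fin.cast_injective _ (T.equivFin.symm.injective (Subtype.ext hij))
  have hg : Function.Injective g := fun i j hij =>
    Fin.cast_injective _ (U.equivFin.symm.injective (Subtype.ext hij))
  refine ⟨⟨⟨Sum.elim f g, ?_⟩, ?_⟩⟩
  · rintro (i | i) (j | j) hij
    · simp at hij
    · exact hadj i j
    · exact (hadj j i).symm
    · simp at hij
  · rintro (i | i) (j | j) hij
    · rw [hf hij]
    · exact absurd hij (hadj i j).ne
    · exact absurd hij.symm (hadj j i).ne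
    · rw [hg hij]

lemma kc_eq_card_cls (k : ℕ) : kc k G = #(cls G k univ) := by
  unfold kc
  rw [← Set.ncard_coe_finset]
  congr 1
  ext T
  simp only [mem_cliqueSet_iff, isNClique_iff, mem_coe, mem_cls, subset_univ, true_and]
  exact and_comm

end

/-- the edge version -/
theorem kc_le (b a k : ℕ) : ∃ C : ℝ, 0 ≤ C ∧ ∀ (n : ℕ) (G : SimpleGraph (Fin n)) (x : ℝ), 1 ≤ x →
    (completeBipartiteGraph (Fin (a + 2)) (Fin b)).Free G → (ec G : ℝ) ≤ x ^ (2 * a + 3) →
    (kc (k + 2) G : ℝ) ≤ C * x ^ E (a + 2) (k + 2) := by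
  classical
  obtain ⟨C₁, hC₁0, hC₁⟩ := card_cls_le b (a + 1) (k + 1)
  obtain ⟨C₂, hC₂0, hC₂⟩ := card_cls_le b (a + 2) (k + 2)
  refine ⟨2 * C₁ + C₂ * 2 ^ E (a + 2) (k + 2), by positivity, fun n G x hx hF hm => ?_⟩
  have hx0 : 0 < x := by linarith
  have hc := cod_of_free G hF
  have he : (#G.edgeFinset : ℝ) ≤ x ^ (2 * a + 3) := by
    rwa [ec, ← SimpleGraph.coe_edgeFinset, Set.ncard_coe_finset] at hm
  have hdeg : ∑ v, (#(nbr G univ v) : ℝ) ≤ 2 * x ^ (2 * a + 3) := by
    have h1 : ∑ v, #(nbr G univ v) = 2 * #G.edgeFinset := by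
      rw [← G.sum_degrees_eq_twice_card_edges]
      refine sum_congr rfl fun v _ => ?_
      rw [← card_neighborFinset_eq_degree, neighborFinset_eq_filter]; rfl
    have h2 : ∑ v, (#(nbr G univ v) : ℝ) = 2 * #G.edgeFinset := by exact_mod_cast h1
    linarith
  let L : Finset (Fin n) := univ.filter fun v => (#(nbr G univ v) : ℝ) ≤ x ^ (a + 1)
  have hL : ∀ v ∈ L, (#(cls G (k + 1) (nbr G univ v)) : ℝ) ≤
      C₁ * x ^ E a k * #(nbr G univ v) := by
    intro v hv
    rcases (nbr G univ v).eq_empty_or_nonempty with h0 | h0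
    · rw [h0, cls_empty]; simp
    have hd1 : (1 : ℝ) ≤ #(nbr G univ v) := by exact_mod_cast h0.card_pos
    obtain ⟨y, hy0, hy⟩ := exists_root (#(nbr G univ v) : ℝ) (by positivity) (Nat.succ_ne_zero a)
    have hyx : y ≤ x := by
      refine (pow_le_pow_iff_left₀ hy0 hx0.le (Nat.succ_ne_zero a)).1 ?_
      rw [hy]; exact (mem_filter.1 hv).2
    have hy1 : 1 ≤ y := by
      refine (pow_le_pow_iff_left₀ zero_le_one hy0 (Nat.succ_ne_zero a)).1 ?_
      rw [hy, one_pow]; exact hd1
    have h1 := hC₁ _ G _ y hy1 (hc.link (mem_univ v)) (Or.inr hy.ge)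
    calc (#(cls G (k + 1) (nbr G univ v)) : ℝ) ≤ C₁ * y ^ E (a + 1) (k + 1) := h1
      _ = C₁ * y ^ E a k * #(nbr G univ v) := by
          rw [← hy, Nat.succ_eq_add_one]; simp only [E]; ring
      _ ≤ _ := by gcongr
  have hH : (#(univ \ L) : ℝ) ≤ (2 * x) ^ (a + 2) := by
    have h1 : (#(univ \ L) : ℝ) * x ^ (a + 1) ≤ ∑ v ∈ univ \ L, (#(nbr G univ v) : ℝ) := by
      rw [← nsmul_eq_mul]
      refine card_nsmul_le_sum _ _ _ fun v hv => ?_
      have := (mem_sdiff.1 hv).2
      simp only [L, mem_filter, mem_univ, true_and, not_le] at this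
      exact this.le
    have h2 : ∑ v ∈ univ \ L, (#(nbr G univ v) : ℝ) ≤ ∑ v, (#(nbr G univ v) : ℝ) :=
      sum_le_sum_of_subset_of_nonneg (subset_univ _) fun _ _ _ => by positivity
    have h3 : (#(univ \ L) : ℝ) * x ^ (a + 1) ≤ 2 * x ^ (a + 2) * x ^ (a + 1) :=
      (h1.trans (h2.trans hdeg)).trans (le_of_eq (by ring))
    refine (le_of_mul_le_mul_right h3 (by positivity)).trans ?_
    rw [mul_pow]
    gcongr
    exact le_self_pow₀ (by norm_num) (by omega)
  have h1 := hC₂ _ G _ (2 * x) (by linarith) (hc.mono (subset_univ (univ \ L))) (Or.inr hH)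
  have h2 : (#(cls G (k + 2) univ) : ℝ) ≤
      ∑ v ∈ L, (#(cls G (k + 1) (nbr G univ v)) : ℝ) + #(cls G (k + 2) (univ \ L)) := by
    exact_mod_cast card_cls_split (G := G) (k + 1) univ L
  have h3 : ∑ v ∈ L, (#(cls G (k + 1) (nbr G univ v)) : ℝ) ≤
      C₁ * x ^ E a k * (2 * x ^ (2 * a + 3)) := by
    refine (sum_le_sum hL).trans ?_
    rw [← mul_sum]
    gcongr
    exact (sum_le_sum_of_subset_of_nonneg (subset_univ _) fun _ _ _ => by positivity).trans hdeg
  rw [kc_eq_card_cls]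
  refine h2.trans ((add_le_add h3 h1).trans (le_of_eq ?_))
  rw [mul_pow]
  simp only [E]
  ring

open Asymptotics Filter in
theorem mex_isBigO {a s : ℕ} (ha : 2 ≤ a) (hs : 2 ≤ s) (b : ℕ) :
    (fun m : ℕ => (mex s m (completeBipartiteGraph (Fin a) (Fin b)) : ℝ)) =O[atTop]
      (fun m : ℕ => (m : ℝ) ^ ((E a s : ℝ) / (2 * a - 1))) := by
  obtain ⟨a, rfl⟩ := Nat.exists_eq_add_of_le' ha
  obtain ⟨k, rfl⟩ := Nat.exists_eq_add_of_le' hs
  obtain ⟨C, hC0, hC⟩ := kc_le b a k
  refine IsBigO.of_bound C ?_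
  filter_upwards [eventually_ge_atTop 1] with m hm
  have hm' : (1 : ℝ) ≤ m := by exact_mod_cast hm
  rw [Real.norm_natCast, Real.norm_of_nonneg (by positivity)]
  refine mex_le (by positivity) fun n G hF hG => ?_
  have h1 := hC n G ((m : ℝ) ^ (((2 * a + 3 : ℕ) : ℝ)⁻¹)) (Real.one_le_rpow hm' (by positivity)) hF
    (by rw [Real.rpow_inv_natCast_pow (by positivity) (by omega), hG])
  refine h1.trans (le_of_eq ?_)
  rw [← Real.rpow_natCast, ← Real.rpow_mul (by positivity)]
  congr 2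
  push_cast
  rw [div_eq_inv_mul]
  congr 2
  ring

end Pool.Agent.P.MP_80f86c_co.Kab
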